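import Pool.Agent.H560.SI.Stm

/-!
# Project SI, CUT: an interval is a disjoint union of shorter intervals
-/

set_option autoImplicit false

namespace Pool.Agent.H236.SI

open Polynomial
open scoped Classical
open Pool.Agent.H694.Typ (Mn mem_Mn pol pol_degree pol_inj)
open Pool.Agent.H560.SI

theorem cut : S_cut := by
  intro K _ _ n h₀ h g p A hh hn hg hgn hA
  obtain ⟨d, rfl⟩ := Nat.exists_eq_add_of_le hh
  rw [Nat.add_sub_cancel_left]
  -- the shift of the centre
  have hdeg : ∀ c : Fin d → K, (X ^ h₀ * pol c : K[X]).degree < ((h₀ + d : ℕ) : WithBot ℕ) := by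
    intro c
    have h1 := pol_degree c
    by_cases h0 : pol c = 0
    · rw [h0, mul_zero, degree_zero]
      exact WithBot.bot_lt_coe _
    · rw [degree_mul, degree_X_pow]
      rw [degree_eq_natDegree h0] at h1 ⊢
      have h2 : (pol c).natDegree < d := by exact_mod_cast h1
      have h3 : h₀ + (pol c).natDegree < h₀ + d := by omega
      exact_mod_cast h3
  have hlt : ∀ c : Fin d → K, (X ^ h₀ * pol c : K[X]).degree < g.degree := by
    intro c
    rw [degree_eq_natDegree hg.ne_zero, hgn]
    exact lt_of_lt_of_le (hdeg c) (by exact_mod_cast hn)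
  have hmon : ∀ c : Fin d → K, (g + X ^ h₀ * pol c).Monic := fun c =>
    hg.add_of_left (hlt c)
  have hnat : ∀ c : Fin d → K, (g + X ^ h₀ * pol c).natDegree = n := by
    intro c
    rw [natDegree_add_eq_left_of_degree_lt (hlt c), hgn]
  -- the subintervals
  have hsub : (Finset.univ : Finset (Fin d → K)).biUnion
      (fun c => (Itv K n h₀ (g + X ^ h₀ * pol c)).filter p) ⊆ (Itv K n (h₀ + d) g).filter p := by
    intro f hf
    rw [Finset.mem_biUnion] at hf
    obtain ⟨c, -, hf⟩ := hf
    rw [Finset.mem_filter] at hf ⊢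
    obtain ⟨hf, hp⟩ := hf
    refine ⟨?_, hp⟩
    unfold Itv at hf ⊢
    rw [Finset.mem_filter] at hf ⊢
    obtain ⟨hM, hf⟩ := hf
    refine ⟨hM, ?_⟩
    have h1 : f - g = (f - (g + X ^ h₀ * pol c)) + X ^ h₀ * pol c := by ring
    rw [h1]
    refine lt_of_le_of_lt (degree_add_le _ _) (max_lt ?_ (hdeg c))
    exact lt_of_lt_of_le hf (by exact_mod_cast Nat.le_add_right h₀ d)
  have hdis : ∀ c ∈ (Finset.univ : Finset (Fin d → K)), ∀ c' ∈ (Finset.univ : Finset (Fin d → K)),
      c ≠ c' → Disjoint ((Itv K n h₀ (g + X ^ h₀ * pol c)).filter p)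
        ((Itv K n h₀ (g + X ^ h₀ * pol c')).filter p) := by
    intro c _ c' _ hcc
    rw [Finset.disjoint_left]
    intro f hf hf'
    rw [Finset.mem_filter] at hf hf'
    have h1 := hf.1
    have h2 := hf'.1
    unfold Itv at h1 h2
    rw [Finset.mem_filter] at h1 h2
    have h3 : (X ^ h₀ * (pol c - pol c') : K[X]).degree < ((h₀ : ℕ) : WithBot ℕ) := by
      have h4 : (X ^ h₀ * (pol c - pol c') : K[X]) =
          (f - (g + X ^ h₀ * pol c')) - (f - (g + X ^ h₀ * pol c)) := by ring
      rw [h4]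
      exact lt_of_le_of_lt (degree_sub_le _ _) (max_lt h2.2 h1.2)
    have h5 : pol c - pol c' ≠ 0 := by
      rw [sub_ne_zero]
      exact fun h => hcc (pol_inj h)
    rw [degree_mul, degree_X_pow, degree_eq_natDegree h5] at h3
    have h6 : h₀ + (pol c - pol c').natDegree < h₀ := by exact_mod_cast h3
    omega
  have hcard := Finset.card_le_card hsub
  rw [Finset.card_biUnion hdis] at hcard
  have hcardR : (∑ c : Fin d → K, (((Itv K n h₀ (g + X ^ h₀ * pol c)).filter p).card : ℝ)) ≤
      ((Itv K n (h₀ + d) g).filter p).card := by exact_mod_cast hcard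
  refine le_trans ?_ hcardR
  calc (Fintype.card K : ℝ) ^ d * A = ∑ _c : Fin d → K, A := by
        rw [Finset.sum_const, Finset.card_univ, Fintype.card_fun, Fintype.card_fin, nsmul_eq_mul,
          Nat.cast_pow]
    _ ≤ _ := Finset.sum_le_sum fun c _ => hA _ (hmon c) (hnat c)

end Pool.Agent.H236.SI
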